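import Pool.Agent.H22.HD.Stmts

/-!
# Project HD, module EXP: the product is close to the exponential
-/

set_option autoImplicit false

open MeasureTheory ProbabilityTheory

namespace Pool.Agent.H22.HD
namespace EXPm

theorem cs_ge (t : ℝ) (ht : |t| ≤ 1) :
    1 + t ^ 2 / 2 - t ^ 4 / 3 ≤ Real.cos t + t * Real.sin t := by
  have h1 := Real.cos_bound ht
  have h2 := Real.sin_bound ht
  have h3 : |t| ^ 4 = t ^ 4 := by
    rw [← abs_pow]; exact abs_of_nonneg (by positivity)
  have h3' : |t| ^ 5 / 100 ≤ t ^ 4 * (5 / 96) := by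
    have : |t| ^ 5 = t ^ 4 * |t| := by rw [pow_succ, h3]
    rw [this]
    have h7 : 0 ≤ t ^ 4 := by positivity
    nlinarith [abs_nonneg t]
  rw [h3] at h1
  have h2 := h2.trans h3'
  have h4 : -(t ^ 4 * (5 / 96)) ≤ Real.cos t - (1 - t ^ 2 / 2) := (abs_le.mp h1).1
  have h5 : |t * (Real.sin t - (t - t ^ 3 / 6))| ≤ t ^ 4 * (5 / 96) := by
    rw [abs_mul]
    calc |t| * |Real.sin t - (t - t ^ 3 / 6)| ≤ 1 * (t ^ 4 * (5 / 96)) :=
          mul_le_mul ht h2 (abs_nonneg _) zero_le_one
      _ = _ := one_mul _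
  have h6 := (abs_le.mp h5).1
  have h7 : 0 ≤ t ^ 4 := by positivity
  nlinarith

theorem one_add_ge_exp (u : ℝ) (hu : 0 ≤ u) : Real.exp (u - u ^ 2) ≤ 1 + u := by
  have h1 : 0 < 1 + u := by linarith
  rw [← Real.le_log_iff_exp_le h1]
  have h2 := Real.one_sub_inv_le_log_of_pos h1
  refine le_trans ?_ h2
  have h3 : 1 - (1 + u)⁻¹ = u / (1 + u) := by field_simp; ring
  rw [h3, le_div_iff₀ h1]
  nlinarith [pow_nonneg hu 3]

theorem factor (t : ℝ) :
    Complex.exp (Complex.I * t) * (starRingEnd ℂ) (1 + Complex.I * t) =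
      ⟨Real.cos t + t * Real.sin t, Real.sin t - t * Real.cos t⟩ := by
  rw [mul_comm Complex.I (t : ℂ), Complex.exp_mul_I]
  apply Complex.ext
  · simp [Complex.cos_ofReal_re, Complex.sin_ofReal_re, Complex.cos_ofReal_im,
      Complex.sin_ofReal_im]; ring
  · simp [Complex.cos_ofReal_re, Complex.sin_ofReal_re, Complex.cos_ofReal_im,
      Complex.sin_ofReal_im]; ring

theorem nfac (t : ℝ) : Complex.normSq (1 + Complex.I * t) = 1 + t ^ 2 := by
  simp [Complex.normSq_apply]; ring

end EXPm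

open EXPm

theorem exp_thm : EXPStmt := by
  intro Ω _ μ _ p hp1 hp2 f0 hf0 hb1 hsy hv m b β hb hm hβ
  set v := ∫ x, f0 x ^ 2 ∂μ with hvdef
  have hv0 : 0 < v := by linarith
  have hm0 : (0 : ℝ) < m := by nlinarith
  have hbpos : 0 < b := by linarith
  have hmv : 0 < (m : ℝ) * v := mul_pos hm0 hv0
  have hβ0 : 0 < β := by rw [hβ]; positivity
  have hβ2 : β ^ 2 * v = b ^ 2 / m := by
    rw [hβ, div_pow, Real.sq_sqrt hmv.le]; field_simp
  set s : ℝ := b ^ 2 / m with hs
  have hs0 : 0 < s := by positivity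
  have hs16 : s ≤ 1 / 16 := by
    rw [hs, div_le_div_iff₀ hm0 (by norm_num)]; linarith
  have hβs : β ^ 2 ≤ 4 * s := by
    nlinarith [sq_nonneg β]
  have hβh : β ≤ 1 / 2 := by
    have : β ^ 2 ≤ (1 / 2) ^ 2 := by linarith
    exact le_of_sq_le_sq this (by norm_num) |>.trans le_rfl
  have hy : ∀ x, |β * f0 x| ≤ 1 := by
    intro x
    rw [abs_mul, abs_of_pos hβ0]
    nlinarith [hb1 x, abs_nonneg (f0 x)]
  -- integrability of bounded measurable functions
  have hintR : ∀ (g : Ω → ℝ), Measurable g → (∃ C : ℝ, ∀ x, |g x| ≤ C) → Integrable g μ := by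
    rintro g hg ⟨C, hC⟩
    exact Integrable.of_bound hg.aestronglyMeasurable C (Filter.Eventually.of_forall hC)
  have hyb : ∀ x, (β * f0 x) ^ 2 ≤ 1 := by
    intro x
    rw [← sq_abs]
    have := hy x
    nlinarith [abs_nonneg (β * f0 x)]
  have hmt : Measurable (fun x => β * f0 x) := hf0.const_mul β
  have hi2 : Integrable (fun x => (β * f0 x) ^ 2) μ :=
    hintR _ (hmt.pow_const 2) ⟨1, fun x => by rw [abs_of_nonneg (sq_nonneg _)]; exact hyb x⟩
  have hi4 : Integrable (fun x => (β * f0 x) ^ 4) μ :=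
    hintR _ (hmt.pow_const 4) ⟨1, fun x => by
      rw [abs_of_nonneg (by positivity)]
      have := hyb x
      nlinarith [sq_nonneg (β * f0 x)]⟩
  have hicos : Integrable (fun x => Real.cos (β * f0 x) + β * f0 x * Real.sin (β * f0 x)) μ :=
    hintR _ ((Real.measurable_cos.comp hmt).add (hmt.mul (Real.measurable_sin.comp hmt)))
      ⟨2, fun x => by
        refine (abs_add_le _ _).trans ?_
        rw [abs_mul]
        have h1 := Real.abs_cos_le_one (β * f0 x)
        have h2 := Real.abs_sin_le_one (β * f0 x)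
        have h3 := hy x
        nlinarith [abs_nonneg (β * f0 x), abs_nonneg (Real.sin (β * f0 x))]⟩
  have e2 : ∫ x, (β * f0 x) ^ 2 ∂μ = s := by
    simp_rw [mul_pow]
    rw [integral_const_mul, ← hvdef, hβ2]
  have e4 : ∫ x, (β * f0 x) ^ 4 ∂μ ≤ 4 * s ^ 2 := by
    have h1 : ∀ x, (β * f0 x) ^ 4 ≤ 4 * s * (β * f0 x) ^ 2 := by
      intro x
      have h2 : (β * f0 x) ^ 2 ≤ 4 * s := by
        rw [mul_pow]
        have h3 : f0 x ^ 2 ≤ 1 := by
          rw [← sq_abs]
          nlinarith [hb1 x, abs_nonneg (f0 x)]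
        nlinarith [sq_nonneg β]
      nlinarith [sq_nonneg (β * f0 x)]
    calc ∫ x, (β * f0 x) ^ 4 ∂μ ≤ ∫ x, 4 * s * (β * f0 x) ^ 2 ∂μ :=
          integral_mono hi4 (hi2.const_mul _) h1
      _ = 4 * s * s := by rw [integral_const_mul, e2]
      _ = 4 * s ^ 2 := by ring
  set I : ℝ := ∫ x, (Real.cos (β * f0 x) + β * f0 x * Real.sin (β * f0 x)) ∂μ with hI
  set u : ℝ := s / 2 - 4 / 3 * s ^ 2 with hu
  have hu0 : 0 ≤ u := by rw [hu]; nlinarith
  have hI1 : 1 + u ≤ I := by
    have h1 : ∫ x, (1 + (β * f0 x) ^ 2 / 2 - (β * f0 x) ^ 4 / 3) ∂μ ≤ I :=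
      integral_mono (((integrable_const _).add (hi2.div_const 2)).sub (hi4.div_const 3)) hicos
        (fun x => cs_ge _ (hy x))
    have h2 : ∫ x, (1 + (β * f0 x) ^ 2 / 2 - (β * f0 x) ^ 4 / 3) ∂μ =
        1 + s / 2 - (∫ x, (β * f0 x) ^ 4 ∂μ) / 3 := by
      have h3 : Integrable (fun x => 1 + (β * f0 x) ^ 2 / 2) μ :=
        (integrable_const _).add (hi2.div_const 2)
      rw [integral_sub h3 (hi4.div_const 3),
        integral_add (integrable_const _) (hi2.div_const 2), integral_div, integral_div, e2]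
      simp
    rw [h2] at h1
    rw [hu]
    linarith
  have hI0 : 0 ≤ I := by linarith
  -- the lower bound of the mixed term
  have hR : 1 - 8 * (b ^ 4 / m) ≤ Real.exp (-b ^ 2 / 2) * I ^ m := by
    have h1 : Real.exp (u - u ^ 2) ≤ I := (one_add_ge_exp u hu0).trans hI1
    have h2 : Real.exp (m * (u - u ^ 2)) ≤ I ^ m := by
      rw [Real.exp_nat_mul]
      exact pow_le_pow_left₀ (Real.exp_pos _).le h1 m
    have h3 : Real.exp (-b ^ 2 / 2 + m * (u - u ^ 2)) ≤ Real.exp (-b ^ 2 / 2) * I ^ m := by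
      rw [Real.exp_add]
      exact mul_le_mul_of_nonneg_left h2 (Real.exp_pos _).le
    have h4 := Real.add_one_le_exp (-b ^ 2 / 2 + m * (u - u ^ 2))
    have h5 : (m : ℝ) * s = b ^ 2 := by rw [hs]; field_simp
    have h6 : b ^ 4 / m = m * s ^ 2 := by rw [hs]; field_simp
    have h7 : u ^ 2 ≤ s ^ 2 := by
      have : u ≤ s := by rw [hu]; nlinarith
      exact pow_le_pow_left₀ hu0 this 2
    have h8 : (m : ℝ) * u = b ^ 2 / 2 - 4 / 3 * (m * s ^ 2) := by
      rw [hu]
      calc (m : ℝ) * (s / 2 - 4 / 3 * s ^ 2) = (m * s) / 2 - 4 / 3 * (m * s ^ 2) := by ring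
        _ = _ := by rw [h5]
    have h9 : (m : ℝ) * u ^ 2 ≤ m * s ^ 2 := mul_le_mul_of_nonneg_left h7 hm0.le
    have h10 : 0 ≤ (m : ℝ) * s ^ 2 := by positivity
    rw [h6]
    have h11 : (m : ℝ) * (u - u ^ 2) = m * u - m * u ^ 2 := by ring
    rw [h11] at h3 h4
    linarith
  have hB : Real.exp (-b ^ 2) * (1 + s) ^ m ≤ 1 := by
    have h5 : (m : ℝ) * s = b ^ 2 := by rw [hs]; field_simp
    have h1 : (1 + s) ^ m ≤ Real.exp (b ^ 2) := by
      rw [← h5, Real.exp_nat_mul]
      refine pow_le_pow_left₀ (by positivity) ?_ m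
      linarith [Real.add_one_le_exp s]
    calc Real.exp (-b ^ 2) * (1 + s) ^ m ≤ Real.exp (-b ^ 2) * Real.exp (b ^ 2) :=
          mul_le_mul_of_nonneg_left h1 (Real.exp_pos _).le
      _ = 1 := by rw [← Real.exp_add]; simp
  -- the functions
  set P : Measure (Fin m → Ω) := Measure.pi fun _ => μ with hP
  set F : (Fin m → Ω) → ℂ := fun x => Complex.exp (Complex.I * β * ∑ j, (f0 (x j) : ℂ)) -
    Real.exp (-b ^ 2 / 2) * ∏ j, (1 + Complex.I * β * f0 (x j)) with hF
  have hFm : Measurable F := by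
    have h1 : ∀ j : Fin m, Measurable (fun x : Fin m → Ω => (f0 (x j) : ℂ)) := fun j =>
      Complex.measurable_ofReal.comp (hf0.comp (measurable_pi_apply j))
    refine Measurable.sub ?_ ?_
    · exact Complex.measurable_exp.comp
        ((Finset.measurable_sum _ fun j _ => h1 j).const_mul _)
    · refine Measurable.const_mul ?_ _
      exact Finset.measurable_prod _ fun j _ => ((h1 j).const_mul _).const_add _
  have hg : ∀ x : Fin m → Ω, ‖F x‖ ^ 2 = 1 + Real.exp (-b ^ 2) * ∏ j, (1 + (β * f0 (x j)) ^ 2) -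
      2 * Real.exp (-b ^ 2 / 2) * (∏ j, (⟨Real.cos (β * f0 (x j)) + β * f0 (x j) *
        Real.sin (β * f0 (x j)), Real.sin (β * f0 (x j)) - β * f0 (x j) *
        Real.cos (β * f0 (x j))⟩ : ℂ)).re := by
    intro x
    have hA : Complex.exp (Complex.I * β * ∑ j, (f0 (x j) : ℂ)) =
        ∏ j, Complex.exp (Complex.I * ((β * f0 (x j) : ℝ) : ℂ)) := by
      rw [← Complex.exp_sum, Finset.mul_sum]
      congr 1
      refine Finset.sum_congr rfl fun j _ => ?_
      push_cast; ring
    have hBx : ∏ j, (1 + Complex.I * β * f0 (x j)) =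
        ∏ j : Fin m, (1 + Complex.I * ((β * f0 (x j) : ℝ) : ℂ)) := by
      refine Finset.prod_congr rfl fun j _ => ?_
      push_cast; ring
    rw [hF]
    simp only
    rw [hA, hBx, Complex.sq_norm, Complex.normSq_sub]
    have h1 : Complex.normSq (∏ j, Complex.exp (Complex.I * ((β * f0 (x j) : ℝ) : ℂ))) = 1 := by
      rw [map_prod]
      refine Finset.prod_eq_one fun j _ => ?_
      rw [Complex.normSq_eq_norm_sq, mul_comm, Complex.norm_exp_ofReal_mul_I]; norm_num
    have h2 : Complex.normSq (((Real.exp (-b ^ 2 / 2) : ℝ) : ℂ) *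
        ∏ j : Fin m, (1 + Complex.I * ((β * f0 (x j) : ℝ) : ℂ))) =
        Real.exp (-b ^ 2) * ∏ j, (1 + (β * f0 (x j)) ^ 2) := by
      rw [map_mul, map_prod, Complex.normSq_ofReal, ← Real.exp_add]
      congr 1
      · congr 1; ring
      · exact Finset.prod_congr rfl fun j _ => nfac _
    have h3 : (∏ j, Complex.exp (Complex.I * ((β * f0 (x j) : ℝ) : ℂ))) *
        (starRingEnd ℂ) (((Real.exp (-b ^ 2 / 2) : ℝ) : ℂ) *
          ∏ j : Fin m, (1 + Complex.I * ((β * f0 (x j) : ℝ) : ℂ))) =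
        ((Real.exp (-b ^ 2 / 2) : ℝ) : ℂ) * ∏ j, (⟨Real.cos (β * f0 (x j)) + β * f0 (x j) *
        Real.sin (β * f0 (x j)), Real.sin (β * f0 (x j)) - β * f0 (x j) *
        Real.cos (β * f0 (x j))⟩ : ℂ) := by
      rw [map_mul, map_prod, Complex.conj_ofReal, mul_left_comm, ← Finset.prod_mul_distrib]
      congr 1
      exact Finset.prod_congr rfl fun j _ => factor _
    rw [h1, h2, h3, Complex.re_ofReal_mul]
    ring
  -- integrability on the product
  have hbnd : ∀ x, ‖F x‖ ≤ 1 + 2 ^ m := by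
    intro x
    rw [hF]
    simp only
    refine (norm_sub_le _ _).trans ?_
    refine add_le_add ?_ ?_
    · have : Complex.I * β * ∑ j, (f0 (x j) : ℂ) =
          ((β * ∑ j, f0 (x j) : ℝ) : ℂ) * Complex.I := by push_cast; ring
      rw [this, Complex.norm_exp_ofReal_mul_I]
    · rw [norm_mul]
      have h1 : ‖((Real.exp (-b ^ 2 / 2) : ℝ) : ℂ)‖ ≤ 1 := by
        rw [Complex.norm_real, Real.norm_of_nonneg (Real.exp_pos _).le, Real.exp_le_one_iff]
        nlinarith
      have h2 : ‖∏ j, (1 + Complex.I * β * f0 (x j))‖ ≤ 2 ^ m := by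
        refine (Finset.norm_prod_le _ _).trans ?_
        calc ∏ j : Fin m, ‖(1 + Complex.I * β * f0 (x j) : ℂ)‖ ≤ ∏ _j : Fin m, (2 : ℝ) := by
              refine Finset.prod_le_prod (fun _ _ => norm_nonneg _) fun j _ => ?_
              refine (norm_add_le _ _).trans ?_
              have h3 : Complex.I * β * f0 (x j) = Complex.I * ((β * f0 (x j) : ℝ) : ℂ) := by
                push_cast; ring
              rw [h3, norm_mul, Complex.norm_I, Complex.norm_real, norm_one, Real.norm_eq_abs]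
              have := hy (x j)
              linarith
          _ = 2 ^ m := by simp
      calc _ ≤ 1 * (2 : ℝ) ^ m := mul_le_mul h1 h2 (norm_nonneg _) zero_le_one
        _ = _ := one_mul _
  have hmem : MemLp F 2 P :=
    MemLp.of_bound hFm.aestronglyMeasurable (1 + 2 ^ m) (Filter.Eventually.of_forall hbnd)
  have hint1 : Integrable (fun x : Fin m → Ω => ∏ j, (1 + (β * f0 (x j)) ^ 2)) P := by
    refine Integrable.of_bound ?_ (2 ^ m) (Filter.Eventually.of_forall fun x => ?_)
    · refine (Finset.measurable_prod _ fun j _ => ?_).aestronglyMeasurable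
      exact ((hmt.comp (measurable_pi_apply j)).pow_const 2).const_add _
    · refine (Finset.norm_prod_le _ _).trans ?_
      calc ∏ j : Fin m, ‖(1 + (β * f0 (x j)) ^ 2 : ℝ)‖ ≤ ∏ _j : Fin m, (2 : ℝ) := by
            refine Finset.prod_le_prod (fun _ _ => norm_nonneg _) fun j _ => ?_
            rw [Real.norm_of_nonneg (by positivity)]
            have := hyb (x j)
            linarith
        _ = 2 ^ m := by simp
  set g : Ω → ℂ := fun x => ⟨Real.cos (β * f0 x) + β * f0 x * Real.sin (β * f0 x),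
    Real.sin (β * f0 x) - β * f0 x * Real.cos (β * f0 x)⟩ with hgdef
  have hgeq : ∀ x, g x = ((Real.cos (β * f0 x) + β * f0 x * Real.sin (β * f0 x) : ℝ) : ℂ) +
      Complex.I * ((Real.sin (β * f0 x) - β * f0 x * Real.cos (β * f0 x) : ℝ) : ℂ) := by
    intro x
    rw [hgdef, mul_comm Complex.I]
    exact Complex.mk_eq_add_mul_I _ _
  have hsm : Measurable (fun x => Real.sin (β * f0 x) - β * f0 x * Real.cos (β * f0 x)) :=
    (Real.measurable_sin.comp hmt).sub (hmt.mul (Real.measurable_cos.comp hmt))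
  have hcm : Measurable (fun x => Real.cos (β * f0 x) + β * f0 x * Real.sin (β * f0 x)) :=
    (Real.measurable_cos.comp hmt).add (hmt.mul (Real.measurable_sin.comp hmt))
  have hisin : Integrable (fun x => Real.sin (β * f0 x) - β * f0 x * Real.cos (β * f0 x)) μ :=
    hintR _ hsm ⟨2, fun x => by
        refine (abs_sub _ _).trans ?_
        rw [abs_mul]
        have h1 := Real.abs_cos_le_one (β * f0 x)
        have h2 := Real.abs_sin_le_one (β * f0 x)
        have h3 := hy x
        nlinarith [abs_nonneg (β * f0 x), abs_nonneg (Real.cos (β * f0 x))]⟩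
  have hgm : Measurable g := by
    have : g = fun x => ((Real.cos (β * f0 x) + β * f0 x * Real.sin (β * f0 x) : ℝ) : ℂ) +
      Complex.I * ((Real.sin (β * f0 x) - β * f0 x * Real.cos (β * f0 x) : ℝ) : ℂ) :=
      funext hgeq
    rw [this]
    exact (Complex.measurable_ofReal.comp hcm).add
      ((Complex.measurable_ofReal.comp hsm).const_mul _)
  have hgint : ∫ x, g x ∂μ = (I : ℂ) := by
    simp_rw [hgeq]
    rw [integral_add hicos.ofReal (hisin.ofReal.const_mul _), integral_const_mul,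
      integral_complex_ofReal, integral_complex_ofReal]
    have h1 : ∫ x, (Real.sin (β * f0 x) - β * f0 x * Real.cos (β * f0 x)) ∂μ = 0 :=
      hsy (fun y => Real.sin (β * y) - β * y * Real.cos (β * y)) (by fun_prop) (fun y => by
        rw [show β * -y = -(β * y) by ring, Real.sin_neg, Real.cos_neg]; ring)
    rw [h1]
    simp [hI]
  have hgb : ∀ x, ‖g x‖ ≤ 4 := by
    intro x
    rw [hgeq]
    refine (norm_add_le _ _).trans ?_
    rw [norm_mul, Complex.norm_I, Complex.norm_real, Complex.norm_real, Real.norm_eq_abs,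
      Real.norm_eq_abs, one_mul]
    have h1 := Real.abs_cos_le_one (β * f0 x)
    have h2 := Real.abs_sin_le_one (β * f0 x)
    have h3 := hy x
    have h4 : |Real.cos (β * f0 x) + β * f0 x * Real.sin (β * f0 x)| ≤ 2 := by
      refine (abs_add_le _ _).trans ?_
      rw [abs_mul]
      nlinarith [abs_nonneg (β * f0 x), abs_nonneg (Real.sin (β * f0 x))]
    have h5 : |Real.sin (β * f0 x) - β * f0 x * Real.cos (β * f0 x)| ≤ 2 := by
      refine (abs_sub _ _).trans ?_
      rw [abs_mul]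
      nlinarith [abs_nonneg (β * f0 x), abs_nonneg (Real.cos (β * f0 x))]
    linarith
  have hint2 : Integrable (fun x : Fin m → Ω => ∏ j, g (x j)) P := by
    refine Integrable.of_bound ?_ (4 ^ m) (Filter.Eventually.of_forall fun x => ?_)
    · refine (Finset.measurable_prod _ fun j _ => ?_).aestronglyMeasurable
      exact hgm.comp (measurable_pi_apply j)
    · refine (Finset.norm_prod_le _ _).trans ?_
      calc ∏ j : Fin m, ‖g (x j)‖ ≤ ∏ _j : Fin m, (4 : ℝ) :=
            Finset.prod_le_prod (fun _ _ => norm_nonneg _) fun j _ => hgb _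
        _ = 4 ^ m := by simp
  have hint3 : Integrable (fun x : Fin m → Ω => (∏ j, g (x j)).re) P := hint2.re
  -- the second moment
  have hval : ∫ x, ‖F x‖ ^ 2 ∂P = 1 + Real.exp (-b ^ 2) * (1 + s) ^ m -
      2 * Real.exp (-b ^ 2 / 2) * I ^ m := by
    have h1 : ∫ x, ‖F x‖ ^ 2 ∂P = ∫ x, (1 + Real.exp (-b ^ 2) *
        ∏ j, (1 + (β * f0 (x j)) ^ 2) - 2 * Real.exp (-b ^ 2 / 2) * (∏ j, g (x j)).re) ∂P :=
      integral_congr_ae (Filter.Eventually.of_forall fun x => hg x)
    have h2 : Integrable (fun x : Fin m → Ω => 1 + Real.exp (-b ^ 2) *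
        ∏ j, (1 + (β * f0 (x j)) ^ 2)) P := (integrable_const _).add (hint1.const_mul _)
    rw [h1, integral_sub h2 (hint3.const_mul _), integral_add (integrable_const _)
      (hint1.const_mul _), integral_const_mul, integral_const_mul]
    have h3 : ∫ x : Fin m → Ω, ∏ j, (1 + (β * f0 (x j)) ^ 2) ∂P = (1 + s) ^ m := by
      rw [hP, integral_fintype_prod_eq_pow (ι := Fin m) (fun x : Ω => 1 + (β * f0 x) ^ 2),
        integral_add (integrable_const _) hi2, e2]
      simp
    have h4 : ∫ x : Fin m → Ω, (∏ j, g (x j)).re ∂P = I ^ m := by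
      have h5 := ContinuousLinearMap.integral_comp_comm Complex.reCLM hint2
      have h6 : ∫ x : Fin m → Ω, ∏ j, g (x j) ∂P = ((I ^ m : ℝ) : ℂ) := by
        rw [hP, integral_fintype_prod_eq_pow (ι := Fin m) g, hgint]
        simp
      rw [h6] at h5
      exact h5.trans (Complex.ofReal_re _)
    rw [h3, h4]
    simp
  have hle : ∫ x, ‖F x‖ ^ 2 ∂P ≤ (4 * b ^ 2 / Real.sqrt m) ^ 2 := by
    rw [hval, div_pow, Real.sq_sqrt hm0.le]
    have h1 : (4 * b ^ 2) ^ 2 / (m : ℝ) = 16 * (b ^ 4 / m) := by ring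
    rw [h1]
    linarith
  -- conclusion
  calc eLpNorm F (ENNReal.ofReal p) P ≤ eLpNorm F 2 P := by
        refine eLpNorm_le_eLpNorm_of_exponent_le ?_ hFm.aestronglyMeasurable
        calc ENNReal.ofReal p ≤ ENNReal.ofReal 2 := ENNReal.ofReal_le_ofReal hp2
          _ = 2 := by simp
    _ = ENNReal.ofReal ((∫ a, ‖F a‖ ^ (2 : ENNReal).toReal ∂P) ^ (2 : ENNReal).toReal⁻¹) :=
        hmem.eLpNorm_eq_integral_rpow_norm (by norm_num) (by norm_num)
    _ ≤ ENNReal.ofReal (4 * b ^ 2 / Real.sqrt m) := by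
        refine ENNReal.ofReal_le_ofReal ?_
        have h0 : 0 ≤ 4 * b ^ 2 / Real.sqrt m := by positivity
        have h1 : (∫ a, ‖F a‖ ^ (2 : ENNReal).toReal ∂P) = ∫ x, ‖F x‖ ^ 2 ∂P := by
          refine integral_congr_ae (Filter.Eventually.of_forall fun x => ?_)
          simp
        rw [h1]
        have h2 : (2 : ENNReal).toReal⁻¹ = 1 / 2 := by simp
        rw [h2, ← Real.sqrt_eq_rpow]
        exact Real.sqrt_le_iff.mpr ⟨h0, hle⟩

end Pool.Agent.H22.HD
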